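import Mathlib
import Pool.Agent.R608.BorelDifference
import Pool.Agent.R608.ThinCantor

/-!
# A Borel set with exactly `ℵ₁` pairwise disjoint translates
-/

set_option autoImplicit false

open Set Filter Topology MeasureTheory Cardinal
open Pool.Agent.R608.BorelDifference Pool.Agent.R608.ThinCantor

namespace Pool.Agent.Results.MP_6a38e0_lc.AlephOneTranslates

/-- The translates `B + x` with `x ∈ X` are pairwise disjoint. -/
def DisjointTranslates (B X : Set ℝ) : Prop :=
  ∀ x ∈ X, ∀ y ∈ X, x ≠ y → Disjoint ((fun b => b + x) '' B) ((fun b => b + y) '' B)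

/-! ## The graph -/

/-- The `n`-th column of `z`. -/
def col (z : Can) (n m : ℕ) : Bool := z (Nat.pair n m)

/-- One of the two points is a column of the other. -/
def Adj (a b : Can) : Prop := (∃ n, a = col b n) ∨ ∃ n, b = col a n

lemma Adj.symm {a b : Can} (h : Adj a b) : Adj b a := Or.symm h

lemma continuous_col (n : ℕ) : Continuous fun z : Can => col z n :=
  continuous_pi fun m => continuous_apply (Nat.pair n m)

/-- The edges. -/
def Edges : Set (Can × Can) := {p | p.1 ≠ p.2 ∧ Adj p.1 p.2}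

lemma measurableSet_Edges : MeasurableSet Edges := by
  have e : Edges = {p : Can × Can | p.1 = p.2}ᶜ ∩ ((⋃ n, {p : Can × Can | p.1 = col p.2 n}) ∪
      ⋃ n, {p : Can × Can | p.2 = col p.1 n}) := by
    ext p
    simp only [mem_inter_iff, mem_compl_iff, mem_union, mem_iUnion]
    rfl
  rw [e]
  refine (isClosed_eq continuous_fst continuous_snd).measurableSet.compl.inter
    ((MeasurableSet.iUnion fun n => ?_).union (MeasurableSet.iUnion fun n => ?_))
  · exact (isClosed_eq continuous_fst ((continuous_col n).comp continuous_snd)).measurableSet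
  · exact (isClosed_eq continuous_snd ((continuous_col n).comp continuous_fst)).measurableSet

/-- A clique of the graph. -/
def Clique (Z : Set Can) : Prop := ∀ a ∈ Z, ∀ b ∈ Z, a ≠ b → Adj a b

lemma Clique.mk_le {Z : Set Can} (hZ : Clique Z) : #Z ≤ ℵ₁ := by
  by_contra hcon
  push Not at hcon
  obtain ⟨Z1, hZ1, hcard⟩ := le_mk_iff_exists_subset.1 hcon.le
  let C : Set Can := Z1 ∪ ⋃ z : Z1, range (col z.1)
  have hC : #C ≤ ℵ₁ := by
    refine (mk_union_le _ _).trans ?_
    have h1 : #(⋃ z : Z1, range (col z.1)) ≤ ℵ₁ := by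
      refine (mk_iUnion_le _).trans ?_
      rw [hcard]
      refine mul_le_of_le (aleph0_le_aleph 1) le_rfl ?_
      refine ciSup_le' fun z => ?_
      exact (mk_range_le).trans ((mk_nat.le).trans (aleph0_le_aleph 1))
    exact add_le_of_le (aleph0_le_aleph 1) hcard.le h1
  obtain ⟨z, hzZ, hzC⟩ : ∃ z ∈ Z, z ∉ C := by
    by_contra h
    push Not at h
    exact absurd (hcon.trans_le (mk_le_mk_of_subset h)) (not_lt.2 hC)
  have h2 : Z1 ⊆ range (col z) := by
    intro w hw
    have hne : z ≠ w := by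
      rintro rfl
      exact hzC (Or.inl hw)
    rcases hZ z hzZ w (hZ1 hw) hne with ⟨n, hn⟩ | ⟨n, hn⟩
    · exact absurd (show z ∈ C from Or.inr (mem_iUnion.2 ⟨⟨w, hw⟩, n, hn.symm⟩)) hzC
    · exact ⟨n, hn.symm⟩
  have h3 : #Z1 ≤ ℵ₀ := (mk_le_mk_of_subset h2).trans ((mk_range_le).trans mk_nat.le)
  rw [hcard] at h3
  exact absurd h3 (not_le.2 aleph0_lt_aleph_one)

lemma exists_uncountable_clique : ∃ Z : Set Can, Clique Z ∧ ¬ Z.Countable := by
  obtain ⟨Z, hZ⟩ := zorn_subset {Z : Set Can | Clique Z} (by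
    intro c hc hchain
    refine ⟨⋃₀ c, ?_, fun s hs => subset_sUnion_of_mem hs⟩
    rintro a ⟨s, hs, has⟩ b ⟨t, ht, hbt⟩ hab
    rcases hchain.total hs ht with h | h
    · exact hc ht a (h has) b hbt hab
    · exact hc hs a has b (h hbt) hab)
  refine ⟨Z, hZ.prop, fun hcount => ?_⟩
  obtain ⟨f, hf⟩ : ∃ f : ℕ → Can, Z ⊆ range f := by
    rcases Z.eq_empty_or_nonempty with h | h
    · exact ⟨fun _ _ => false, by rw [h]; exact empty_subset _⟩
    · obtain ⟨f, hf⟩ := hcount.exists_eq_range h
      exact ⟨f, hf.le⟩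
  let g : Can → Can := fun w m =>
    if (Nat.unpair m).1 = 0 then w (Nat.unpair m).2 else f ((Nat.unpair m).1 - 1) (Nat.unpair m).2
  have hg0 : ∀ w, col (g w) 0 = w := by
    intro w
    funext m
    simp [col, g]
  have hg1 : ∀ w n, col (g w) (n + 1) = f n := by
    intro w n
    funext m
    simp [col, g]
  have hginj : Function.Injective g := fun w w' h => by
    rw [← hg0 w, ← hg0 w', h]
  obtain ⟨w, hw⟩ : ∃ w, g w ∉ Z := by
    by_contra h
    push Not at h
    have h1 : (range g).Countable := hcount.mono (range_subset_iff.2 h)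
    have h2 : (univ : Set Can).Countable := by
      have h3 := h1.preimage_of_injOn hginj.injOn
      rwa [preimage_range] at h3
    have h4 : #(univ : Set Can) ≤ ℵ₀ := le_aleph0_iff_set_countable.2 h2
    rw [mk_univ] at h4
    have h5 : #Can = 2 ^ ℵ₀ := by simp [Can]
    rw [h5] at h4
    exact absurd h4 (not_le.2 (cantor ℵ₀))
  have hclique : Clique (insert (g w) Z) := by
    have hadj : ∀ z ∈ Z, Adj (g w) z := by
      intro z hz
      obtain ⟨n, rfl⟩ := hf hz
      exact Or.inr ⟨n + 1, (hg1 w n).symm⟩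
    rintro a (rfl | ha) b (rfl | hb) hab
    · exact absurd rfl hab
    · exact hadj b hb
    · exact (hadj a ha).symm
    · exact hZ.prop a ha b hb hab
  have h4 := hZ.eq_of_subset hclique (subset_insert _ _)
  exact hw (h4 ▸ mem_insert _ _)

/-! ## The set of differences -/

/-- The set of differences coded by the graph. -/
def E : Set ℝ := (fun q : Can × Can => k q.1 - k q.2) '' Edges

lemma measurableSet_E : MeasurableSet E := by
  refine measurableSet_Edges.image_of_measurable_injOn
    ((measurable_k.comp measurable_fst).sub (measurable_k.comp measurable_snd)) ?_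
  rintro ⟨a, b⟩ ⟨hab, -⟩ ⟨c, d⟩ - h
  obtain ⟨h1, h2⟩ := core4 hab h
  exact Prod.ext h1 h2

lemma mem_E_iff {a b : Can} (hab : a ≠ b) : k a - k b ∈ E ↔ Adj a b := by
  constructor
  · rintro ⟨⟨c, d⟩, ⟨hcd, hadj⟩, h⟩
    obtain ⟨rfl, rfl⟩ := core4 hcd h
    exact hadj
  · exact fun h => ⟨(a, b), ⟨hab, h⟩, rfl⟩

lemma k_injective : Function.Injective k := by
  intro a b h
  by_contra hab
  have h1 : k a - k b = k a - k a := by rw [h]
  obtain ⟨-, h2⟩ := core4 hab h1
  exact hab h2.symm

/-- A set of reals all of whose differences are coded by the graph has size at most `ℵ₁`. -/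
lemma mk_le_of_differences {X : Set ℝ} (hX : ∀ x ∈ X, ∀ y ∈ X, x ≠ y → x - y ∈ E) :
    #X ≤ ℵ₁ := by
  rcases X.eq_empty_or_nonempty with rfl | ⟨x0, hx0⟩
  · rw [mk_eq_zero]
    exact bot_le
  let Y : Set ℝ := X \ {x0}
  have hrep : ∀ y : Y, ∃ q : Can × Can, q ∈ Edges ∧ k q.1 - k q.2 = y.1 - x0 := fun y => by
    obtain ⟨q, hq, h⟩ := hX y.1 y.2.1 x0 hx0 y.2.2
    exact ⟨q, hq, h⟩
  choose q hqE hq using hrep
  -- two representations share a coordinate, and the other coordinates are adjacent
  have hpair : ∀ y y' : Y, y ≠ y' →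
      ((q y).1 = (q y').1 ∧ (q y).2 ≠ (q y').2 ∧ Adj (q y).2 (q y').2) ∨
      ((q y).2 = (q y').2 ∧ (q y).1 ≠ (q y').1 ∧ Adj (q y).1 (q y').1) := by
    intro y y' hne
    obtain ⟨⟨e, f⟩, ⟨hef, hadj⟩, h⟩ := hX y.1 y.2.1 y'.1 y'.2.1 (fun h => hne (Subtype.ext h))
    have h1 : k (q y).1 - k (q y).2 - (k (q y').1 - k (q y').2) = k e - k f := by
      rw [hq, hq]
      change k e - k f = y.1 - y'.1 at h
      rw [h]
      ring
    rcases core6 (hqE y).1 (hqE y').1 hef h1 with ⟨h2, h3, h4⟩ | ⟨h2, h3, h4⟩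
    · left
      subst h3 h4
      exact ⟨h2, hef.symm, hadj.symm⟩
    · right
      subst h3 h4
      exact ⟨h2, hef, hadj⟩
  have hY : #Y ≤ ℵ₁ := by
    by_cases hall : ∀ y y' : Y, (q y).2 = (q y').2
    · -- all second coordinates agree
      have hinj : Function.Injective fun y : Y => (q y).1 := by
        intro y y' h
        by_contra hne
        rcases hpair y y' hne with h1 | h1
        · exact h1.2.1 (hall y y')
        · exact h1.2.1 h
      have hcl : Clique (range fun y : Y => (q y).1) := by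
        rintro _ ⟨y, rfl⟩ _ ⟨y', rfl⟩ hne
        have hne' : y ≠ y' := fun h => hne (by rw [h])
        rcases hpair y y' hne' with h1 | h1
        · exact absurd h1.1 hne
        · exact h1.2.2
      rw [← mk_range_eq _ hinj]
      exact hcl.mk_le
    · push Not at hall
      obtain ⟨y1, y2, h12⟩ := hall
      have hne12 : y1 ≠ y2 := fun h => h12 (by rw [h])
      have ha : (q y1).1 = (q y2).1 := by
        rcases hpair y1 y2 hne12 with h1 | h1
        · exact h1.1
        · exact absurd h1.1 h12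
      have hsame : ∀ y : Y, (q y).1 = (q y1).1 := by
        intro y
        by_contra hy
        have hy1 : y ≠ y1 := fun h => hy (by rw [h])
        have hy2 : y ≠ y2 := fun h => hy (by rw [h, ha])
        have e1 : (q y).2 = (q y1).2 := by
          rcases hpair y y1 hy1 with h1 | h1
          · exact absurd h1.1 hy
          · exact h1.1
        have e2 : (q y).2 = (q y2).2 := by
          rcases hpair y y2 hy2 with h1 | h1
          · exact absurd (h1.1.trans ha.symm) hy
          · exact h1.1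
        exact h12 (e1.symm.trans e2)
      have hinj : Function.Injective fun y : Y => (q y).2 := by
        intro y y' h
        by_contra hne
        rcases hpair y y' hne with h1 | h1
        · exact h1.2.1 h
        · exact h1.2.1 ((hsame y).trans (hsame y').symm)
      have hcl : Clique (range fun y : Y => (q y).2) := by
        rintro _ ⟨y, rfl⟩ _ ⟨y', rfl⟩ hne
        have hne' : y ≠ y' := fun h => hne (by rw [h])
        rcases hpair y y' hne' with h1 | h1
        · exact h1.2.2
        · exact absurd h1.1 hne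
      rw [← mk_range_eq _ hinj]
      exact hcl.mk_le
  have hXY : X = insert x0 Y := by
    change X = insert x0 (X \ {x0})
    rw [insert_sdiff_singleton, insert_eq_of_mem hx0]
  rw [hXY]
  refine (mk_insert_le).trans ?_
  exact add_le_of_le (aleph0_le_aleph 1) hY (one_le_aleph0.trans (aleph0_le_aleph 1))

/-- The Borel set. -/
theorem exists_borel : ∃ B : Set ℝ, MeasurableSet B ∧ ∀ X : Set ℝ,
    DisjointTranslates B X ↔ ∀ x ∈ X, ∀ y ∈ X, x ≠ y → x - y ∈ E := by
  obtain ⟨B, hB, hBE⟩ := exists_borel_difference E measurableSet_E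
    (by
      rintro _ ⟨⟨a, b⟩, ⟨hab, hadj⟩, rfl⟩
      refine ⟨(b, a), ⟨hab.symm, hadj.symm⟩, ?_⟩
      change k b - k a = -(k a - k b)
      ring)
    (by
      rintro ⟨⟨a, b⟩, ⟨hab, -⟩, h⟩
      exact hab (k_injective (sub_eq_zero.1 h)))
    (by
      rintro _ ⟨⟨a, b⟩, -, rfl⟩
      exact thin_k_sub a b)
  refine ⟨B, hB, fun X => ⟨fun h x hx y hy hxy => ?_, fun h x hx y hy hxy => ?_⟩⟩
  · by_contra hE
    obtain ⟨u, hu, v, hv, huv⟩ := (hBE (x - y)).2 hE
    have h1 := h x hx y hy hxy
    rw [Set.disjoint_left] at h1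
    refine h1 ⟨v, hv, rfl⟩ ⟨u, hu, ?_⟩
    change u + y = v + x
    linarith
  · rw [Set.disjoint_left]
    rintro _ ⟨v, hv, rfl⟩ ⟨u, hu, huv⟩
    have huv' : u + y = v + x := huv
    exact (hBE (x - y)).1 ⟨u, hu, v, hv, by linarith⟩ (h x hx y hy hxy)

/-- **Theorem.** (ZFC) There is a Borel set `B ⊆ ℝ` which has uncountably many pairwise disjoint
translates, but for which every family of pairwise disjoint translates has size at most `ℵ₁`.
Consequently the statement that every Borel set with uncountably many pairwise disjoint translates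
has `𝔠` many pairwise disjoint translates is equivalent to the continuum hypothesis. -/
theorem result :
    (∃ B : Set ℝ, MeasurableSet B ∧ (∃ X : Set ℝ, ¬ X.Countable ∧ DisjointTranslates B X) ∧
      ∀ X : Set ℝ, DisjointTranslates B X → #X ≤ ℵ₁) ∧
    ((∀ B : Set ℝ, MeasurableSet B → (∃ X : Set ℝ, ¬ X.Countable ∧ DisjointTranslates B X) →
      ∃ X : Set ℝ, #X = 𝔠 ∧ DisjointTranslates B X) ↔ (𝔠 : Cardinal.{0}) = ℵ₁) := by
  have hmain : ∃ B : Set ℝ, MeasurableSet B ∧
      (∃ X : Set ℝ, ¬ X.Countable ∧ DisjointTranslates B X) ∧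
      ∀ X : Set ℝ, DisjointTranslates B X → #X ≤ ℵ₁ := by
    obtain ⟨B, hB, hBX⟩ := exists_borel
    refine ⟨B, hB, ?_, fun X hX => mk_le_of_differences ((hBX X).1 hX)⟩
    obtain ⟨Z, hZ, hZc⟩ := exists_uncountable_clique
    refine ⟨k '' Z, fun h => hZc ?_, (hBX _).2 ?_⟩
    · exact (h.preimage_of_injOn k_injective.injOn).mono (subset_preimage_image k Z)
    · rintro _ ⟨a, ha, rfl⟩ _ ⟨b, hb, rfl⟩ hab
      have hab' : a ≠ b := fun h => hab (by rw [h])
      exact (mem_E_iff hab').2 (hZ a ha b hb hab')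
  refine ⟨hmain, fun h => ?_, fun hCH B _ hX => ?_⟩
  · obtain ⟨B, hB, hX, hle⟩ := hmain
    obtain ⟨X, hXc, hXd⟩ := h B hB hX
    refine le_antisymm ?_ aleph_one_le_continuum
    rw [← hXc]
    exact hle X hXd
  · obtain ⟨X, hXc, hXd⟩ := hX
    refine ⟨X, le_antisymm ?_ ?_, hXd⟩
    · rw [← mk_real]
      exact mk_set_le X
    · rw [hCH, ← succ_aleph0, Order.succ_le_iff]
      by_contra hle
      exact hXc (le_aleph0_iff_set_countable.1 (not_lt.1 hle))

end Pool.Agent.Results.MP_6a38e0_lc.AlephOneTranslates
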